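import Pool.Agent.H23.CR.Stm

set_option autoImplicit false

namespace Pool.Agent.H23.CR

open Finset Filter Pool.Agent.H999R2.KSat Pool.Agent.H320R2.CT

theorem p_REL : S_REL := by
  intro n k s I hk
  classical
  have hcard : Fintype.card {x : Fin n // x ∉ I} = n - I.card := by
    rw [Fintype.card_subtype_compl]
    simp
  let φ : {x : Fin n // x ∉ I} ≃ Fin (n - I.card) := Fintype.equivFinOfCardEq hcard
  let ψ : Ed (n - I.card) ≃ {e : Ed n // av I e} :=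
    { toFun := fun e => ⟨⟨((φ.symm e.1.1).1, (φ.symm e.1.2).1),
        fun h => e.2 (φ.symm.injective (Subtype.ext h))⟩, (φ.symm e.1.1).2, (φ.symm e.1.2).2⟩
      invFun := fun e => ⟨(φ ⟨e.1.1.1, e.2.1⟩, φ ⟨e.1.1.2, e.2.2⟩),
        fun h => e.1.2 (congrArg Subtype.val (φ.injective h))⟩
      left_inv := by
        rintro ⟨⟨a, b⟩, h⟩
        simp
      right_inv := by
        rintro ⟨⟨⟨a, b⟩, h⟩, h'⟩
        simp }
  have hE := E_equiv (Equiv.arrowCongr (Equiv.refl (Fin s)) ψ)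
    (fun G : Fin s → {e : Ed n // av I e} => ind (∃ σ : Co n k, ∀ i, pr σ (G i).1))
  unfold pc
  rw [← hE]
  apply E_mono
  intro F
  apply ind_mono
  rintro ⟨σ', hσ'⟩
  refine ⟨fun x => if h : x ∉ I then σ' (φ ⟨x, h⟩) else ⟨0, hk⟩, fun i => ?_⟩
  have h1 := hσ' i
  have e1 : ((ψ (F i)).1.1.1 : Fin n) = (φ.symm (F i).1.1).1 := rfl
  have e2 : ((ψ (F i)).1.1.2 : Fin n) = (φ.symm (F i).1.2).1 := rfl
  unfold pr at h1 ⊢
  have e3 : ((Equiv.arrowCongr (Equiv.refl (Fin s)) ψ) F i) = ψ (F i) := rfl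
  rw [e3, e1, e2]
  have k1 : (φ.symm (F i).1.1).1 ∉ I := (φ.symm (F i).1.1).2
  have k2 : (φ.symm (F i).1.2).1 ∉ I := (φ.symm (F i).1.2).2
  change (if h : _ ∉ I then σ' (φ ⟨_, h⟩) else ⟨0, hk⟩) ≠
    (if h : _ ∉ I then σ' (φ ⟨_, h⟩) else ⟨0, hk⟩)
  rw [dif_pos k1, dif_pos k2]
  simpa using h1

end Pool.Agent.H23.CR
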