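import Pool.Agent.H23.CR.Stm

/-! # Crew CR: part RES (helper6) -/

set_option autoImplicit false

namespace Pool.Agent.H23.CR

open Finset Filter Pool.Agent.H999R2.KSat Pool.Agent.H320R2.CT

theorem p_RES : S_RES := by
  classical
  intro Y _ _ m s ι hι g
  let P : Fin m → Prop := fun i => i ∈ Set.range ι
  let e1 := Equiv.piEquivPiSubtypeProd P (fun _ : Fin m => Y)
  let e0 : Fin s ≃ {x // P x} := Equiv.ofInjective ι hι
  let e2 : ({x // P x} → Y) ≃ (Fin s → Y) := Equiv.arrowCongr e0.symm (Equiv.refl Y)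
  have h1 : E (fun G : Fin m → Y => g (fun i => G (ι i))) =
      E (fun G : Fin m → Y => (fun z : ({x // P x} → Y) × ({x // ¬ P x} → Y) => g (e2 z.1)) (e1 G)) := by
    refine E_congr fun G => ?_
    rfl
  rw [h1, E_equiv e1 (fun z : ({x // P x} → Y) × ({x // ¬ P x} → Y) => g (e2 z.1)),
    E_prod (fun (x : {x // P x} → Y) (_ : {x // ¬ P x} → Y) => g (e2 x))]
  rw [← E_equiv e2 g]
  exact E_congr fun x => E_const _

end Pool.Agent.H23.CR
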