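import Pool.Agent.H23.CR.Stm

/-! # Crew CR: part RS (helper6) -/

set_option autoImplicit false

namespace Pool.Agent.H23.CR

open Finset Filter Pool.Agent.H999R2.KSat Pool.Agent.H320R2.CT

theorem rs_one (X : Type) [Fintype X] (p : X → Prop) [DecidablePred p] [Nonempty {x // p x}]
    (f : X → ℝ) : E f = E (fun x : X => E (fun y : {x // p x} => f (if p x then (y : X) else x))) := by
  have h1 : ∀ x : X, E (fun y : {x // p x} => f (if p x then (y : X) else x)) =
      if p x then E (fun y : {x // p x} => f y) else f x := by
    intro x
    by_cases hx : p x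
    · simp only [hx, if_true]
    · simp only [hx, if_false]
      exact E_const _
  rw [E_congr h1]
  unfold E
  congr 1
  have hc : (Fintype.card {x // p x} : ℝ) ≠ 0 := by
    exact_mod_cast Fintype.card_ne_zero
  rw [Finset.sum_ite, Finset.sum_const, nsmul_eq_mul, ← Finset.sum_filter_add_sum_filter_not univ p f]
  congr 1
  rw [← Fintype.card_subtype p, mul_div_cancel₀ _ hc]
  exact Finset.sum_subtype (univ.filter p) (by simp) f

theorem p_RS : S_RS := by
  intro X _ p _ _ m
  induction m with
  | zero =>
    intro f
    refine E_congr fun F => ?_
    have h1 : ∀ G : Fin 0 → {x // p x}, f (fun j => if p (F j) then (G j : X) else F j) = f F := by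
      intro G
      congr 1
      exact funext fun j => j.elim0
    rw [E_congr h1, E_const]
  | succ m ih =>
    intro f
    rw [E_cons, E_cons]
    rw [rs_one X p (fun x => E (fun G : Fin m → X => f (Fin.cons x G)))]
    refine E_congr fun x => ?_
    have h2 : ∀ y : {x // p x}, E (fun G : Fin m → X => f (Fin.cons (if p x then (y : X) else x) G)) =
        E (fun F : Fin m → X => E (fun G : Fin m → {x // p x} =>
          f (Fin.cons (if p x then (y : X) else x) (fun j => if p (F j) then (G j : X) else F j)))) :=
      fun y => ih (fun G => f (Fin.cons (if p x then (y : X) else x) G))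
    rw [E_congr h2, E_comm]
    refine E_congr fun F => ?_
    rw [E_cons]
    refine E_congr fun y => E_congr fun G => ?_
    congr 1
    refine funext fun j => ?_
    refine Fin.cases ?_ (fun i => ?_) j
    · simp
    · simp

end Pool.Agent.H23.CR
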