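import Pool.Agent.H23.CR.Stm
import Pool.Graph.R_seed8.H320R2.CT.BA

set_option autoImplicit false

/-! Part UNI: the probability of given edges. -/

namespace Pool.Agent.H23.CR

open Finset Filter Pool.Agent.H999R2.KSat Pool.Agent.H320R2.CT

/-- one edge -/
theorem uni_one (n : ℕ) (hn : 2 ≤ n) (x y : Fin n) :
    E (fun e : Ed n => ind (jn e x y)) ≤ 2 / ((n : ℝ) * n - n) := by
  classical
  have hpos : (0 : ℝ) < (n : ℝ) * n - n := by
    have : (2 : ℝ) ≤ n := by exact_mod_cast hn
    nlinarith
  unfold E
  rw [ba_card]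
  gcongr
  have h1 : ∀ e : Ed n, ind (jn e x y) ≤ ind (e.1 = (x, y)) + ind (e.1 = (y, x)) := by
    intro e
    refine (ind_mono ?_).trans (ind_or_le _ _)
    rintro (⟨h1, h2⟩ | ⟨h1, h2⟩)
    · left; exact Prod.ext h1 h2
    · right; exact Prod.ext h1 h2
  have h2 : ∀ z : Fin n × Fin n, ∑ e : Ed n, ind (e.1 = z) ≤ 1 := by
    intro z
    have h3 : ∑ e : Ed n, ind (e.1 = z) = ((univ.filter (fun e : Ed n => e.1 = z)).card : ℝ) := by
      rw [Finset.card_filter]
      push_cast
      apply Finset.sum_congr rfl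
      intro e _
      unfold ind
      split_ifs <;> rfl
    rw [h3]
    have h4 : (univ.filter (fun e : Ed n => e.1 = z)).card ≤ 1 := by
      rw [Finset.card_le_one]
      intro a ha b hb
      rw [Finset.mem_filter] at ha hb
      exact Subtype.ext (ha.2.trans hb.2.symm)
    exact_mod_cast h4
  calc ∑ e : Ed n, ind (jn e x y) ≤ ∑ e : Ed n, (ind (e.1 = (x, y)) + ind (e.1 = (y, x))) :=
        Finset.sum_le_sum (fun e _ => h1 e)
    _ ≤ 1 + 1 := by
        rw [Finset.sum_add_distrib]
        exact add_le_add (h2 _) (h2 _)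
    _ = 2 := by norm_num

theorem p_UNI : S_UNI := by
  classical
  intro n m l v v' j hn hj
  have hpos : (0 : ℝ) < (n : ℝ) * n - n := by
    have : (2 : ℝ) ≤ n := by exact_mod_cast hn
    nlinarith
  set q : ℝ := 2 / ((n : ℝ) * n - n) with hq
  have hq0 : 0 ≤ q := by positivity
  let f : Fin m → Ed n → ℝ := fun k e => ∏ i ∈ univ.filter (fun i => j i = k), ind (jn e (v i) (v' i))
  have h1 : ∀ F : Fin m → Ed n, ind (∀ i, jn (F (j i)) (v i) (v' i)) = ∏ k, f k (F k) := by
    intro F
    rw [ind_forall]
    rw [← Finset.prod_fiberwise_of_maps_to (s := univ) (t := univ) (g := j)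
      (fun i _ => Finset.mem_univ _)]
    apply Finset.prod_congr rfl
    intro k _
    apply Finset.prod_congr rfl
    intro i hi
    rw [Finset.mem_filter] at hi
    rw [hi.2]
  rw [E_congr h1, E_pi]
  have hne : Nonempty (Ed n) := ⟨⟨(⟨0, by omega⟩, ⟨1, by omega⟩), by simp⟩⟩
  have h2 : ∀ k, E (f k) ≤ q ^ (univ.filter (fun i => j i = k)).card := by
    intro k
    have hcard : (univ.filter (fun i => j i = k)).card ≤ 1 := by
      rw [Finset.card_le_one]
      intro a ha b hb
      rw [Finset.mem_filter] at ha hb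
      exact hj (ha.2.trans hb.2.symm)
    rcases Nat.le_one_iff_eq_zero_or_eq_one.1 hcard with h | h
    · rw [h, pow_zero]
      have h3 : univ.filter (fun i => j i = k) = ∅ := Finset.card_eq_zero.1 h
      have h4 : f k = fun _ => 1 := by
        funext e
        simp only [f, h3, Finset.prod_empty]
      rw [h4, E_const]
    · obtain ⟨i, hi⟩ := Finset.card_eq_one.1 h
      rw [h, pow_one]
      have h4 : f k = fun e => ind (jn e (v i) (v' i)) := by
        funext e
        simp only [f, hi, Finset.prod_singleton]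
      rw [h4]
      exact uni_one n hn _ _
  have h0 : ∀ k, 0 ≤ E (f k) := by
    intro k
    apply E_nonneg
    intro e
    exact Finset.prod_nonneg (fun i _ => ind_nonneg _)
  calc ∏ k, E (f k) ≤ ∏ k, q ^ (univ.filter (fun i => j i = k)).card :=
        Finset.prod_le_prod (fun k _ => h0 k) (fun k _ => h2 k)
    _ = q ^ (∑ k, (univ.filter (fun i => j i = k)).card) := by
        rw [Finset.prod_pow_eq_pow_sum]
    _ = q ^ l := by
        congr 1
        rw [← Finset.card_eq_sum_card_fiberwise (s := univ) (t := univ) (f := j)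
          (fun i _ => Finset.mem_univ _)]
        simp

end Pool.Agent.H23.CR
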