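import Pool.Agent.H23.CR.KER
import Pool.Agent.H23.CR.REL
import Pool.Agent.H23.CR.RES
import Pool.Agent.H23.CR.RS
import Pool.Agent.H23.CR.UNI
import Pool.Agent.H80.CR.CYC
import Pool.Agent.H31.CR.DEC
import Pool.Agent.H31.CR.MOM
import Pool.Agent.H42.CR.MRK
import Pool.Agent.H42.CR.STP
import Pool.Agent.H88.CR.POS

/-! Assembly of crew CR. -/

namespace Pool.Agent.H23.CR

theorem inc_all : S_INC :=
  INC (p_STP (p_MRK p_KER (Pool.Agent.H31.CR.p_DEC p_RS p_RES p_REL) Pool.Agent.H31.CR.p_MOM)) (POS p_CYC p_UNI)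

end Pool.Agent.H23.CR
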