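import Pool.Agent.H23.CR.Stm

set_option autoImplicit false

namespace Pool.Agent.H23.CR

open Finset Filter Pool.Agent.H999R2.KSat Pool.Agent.H320R2.CT

theorem chi_iff {n : ℕ} (G : SimpleGraph (Fin n)) (r : ℕ) (hr : 1 ≤ r) :
    G.chromaticNumber = r ↔ G.Colorable r ∧ ¬ G.Colorable (r - 1) := by
  rw [← SimpleGraph.chromaticNumber_le_iff_colorable, ← SimpleGraph.chromaticNumber_le_iff_colorable]
  constructor
  · intro h
    rw [h]
    refine ⟨le_refl _, ?_⟩
    rw [Nat.cast_le]
    omega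
  · rintro ⟨h1, h2⟩
    obtain ⟨a, ha⟩ := ENat.ne_top_iff_exists.mp (ne_top_of_le_ne_top (ENat.natCast_ne_top r) h1)
    rw [← ha] at h1 h2 ⊢
    rw [Nat.cast_le] at h1 h2
    congr 1
    omega

theorem chi_eq (r n M : ℕ) (hr : 1 ≤ r) : chiProb r n M = cp r n M - cp (r - 1) n M := by
  classical
  unfold chiProb cp
  rw [← sub_div]
  congr 1
  have h1 : Nat.card {G : SimpleGraph (Fin n) // G.edgeSet.ncard = M ∧ G.chromaticNumber = (r : ℕ∞)} =
      ((univ : Finset (SimpleGraph (Fin n))).filter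
        (fun G => G.edgeSet.ncard = M ∧ G.chromaticNumber = (r : ℕ∞))).card := by
    rw [Nat.card_eq_fintype_card, Fintype.card_subtype]
  have h2 : ∀ k : ℕ, Nat.card {G : SimpleGraph (Fin n) // G.edgeSet.ncard = M ∧ G.Colorable k} =
      ((univ : Finset (SimpleGraph (Fin n))).filter
        (fun G => G.edgeSet.ncard = M ∧ G.Colorable k)).card := by
    intro k
    rw [Nat.card_eq_fintype_card, Fintype.card_subtype]
  rw [h1, h2, h2, eq_sub_iff_add_eq]
  have hd : Disjoint ((univ : Finset (SimpleGraph (Fin n))).filter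
        (fun G => G.edgeSet.ncard = M ∧ G.chromaticNumber = (r : ℕ∞)))
      ((univ : Finset (SimpleGraph (Fin n))).filter
        (fun G => G.edgeSet.ncard = M ∧ G.Colorable (r - 1))) := by
    rw [Finset.disjoint_left]
    intro G hG hG'
    simp only [mem_filter, mem_univ, true_and] at hG hG'
    exact ((chi_iff G r hr).1 hG.2).2 hG'.2
  have hu : ((univ : Finset (SimpleGraph (Fin n))).filter
        (fun G => G.edgeSet.ncard = M ∧ G.chromaticNumber = (r : ℕ∞))) ∪
      ((univ : Finset (SimpleGraph (Fin n))).filter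
        (fun G => G.edgeSet.ncard = M ∧ G.Colorable (r - 1))) =
      (univ : Finset (SimpleGraph (Fin n))).filter
        (fun G => G.edgeSet.ncard = M ∧ G.Colorable r) := by
    ext G
    simp only [mem_union, mem_filter, mem_univ, true_and]
    rw [chi_iff G r hr]
    constructor
    · rintro (⟨h, h', -⟩ | ⟨h, h'⟩)
      · exact ⟨h, h'⟩
      · exact ⟨h, h'.mono (by omega)⟩
    · rintro ⟨h, h'⟩
      by_cases h3 : G.Colorable (r - 1)
      · exact Or.inr ⟨h, h3⟩
      · exact Or.inl ⟨h, h', h3⟩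
  have := Finset.card_union_of_disjoint hd
  rw [hu] at this
  rw [this]
  push_cast
  ring

theorem p_FIN : S_FIN := by
  intro t ht3 hinc hcp r hr
  have hpos : ∀ k, 3 ≤ k → 0 < t k := by
    intro k hk
    induction k, hk using Nat.le_induction with
    | base => exact ht3
    | succ k hk ih => exact ih.trans (hinc k hk)
  have hr1 : r - 1 + 1 = r := by omega
  have hlt : t (r - 1) < t r := by
    have := hinc (r - 1) (by omega)
    rwa [hr1] at this
  obtain ⟨a1, a0⟩ := hcp (r - 1) (by omega)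
  obtain ⟨b1, b0⟩ := hcp r (by omega)
  have heq : ∀ x : ℝ, (fun n : ℕ => chiProb r n ⌊x * (n : ℝ)⌋₊) =
      fun n : ℕ => cp r n ⌊x * (n : ℝ)⌋₊ - cp (r - 1) n ⌊x * (n : ℝ)⌋₊ := by
    intro x
    funext n
    exact chi_eq r n _ (by omega)
  have q1 : ∀ x, x < t (r - 1) →
      Tendsto (fun n : ℕ => chiProb r n ⌊x * (n : ℝ)⌋₊) atTop (nhds 0) := by
    intro x hx
    rw [heq]
    simpa using (b1 x (hx.trans hlt)).sub (a1 x hx)
  have q2 : ∀ x, t (r - 1) < x → x < t r →
      Tendsto (fun n : ℕ => chiProb r n ⌊x * (n : ℝ)⌋₊) atTop (nhds 1) := by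
    intro x hx hx'
    rw [heq]
    simpa using (b1 x hx').sub (a0 x hx)
  have q3 : ∀ x, t r < x →
      Tendsto (fun n : ℕ => chiProb r n ⌊x * (n : ℝ)⌋₊) atTop (nhds 0) := by
    intro x hx
    rw [heq]
    simpa using (b0 x hx).sub (a0 x (hlt.trans hx))
  refine ⟨?_, fun x _ hx => q1 x hx, q2, q3⟩
  unfold cc
  have hp := hpos (r - 1) (by omega)
  refine csInf_eq_of_forall_ge_of_forall_gt_exists_lt ?_ ?_ ?_
  · refine ⟨(t (r - 1) + t r) / 2, by linarith, ?_⟩
    rw [(q2 _ (by linarith) (by linarith)).liminf_eq]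
    exact one_pos
  · rintro c ⟨-, hc⟩
    by_contra hlt'
    rw [(q1 c (not_le.1 hlt')).liminf_eq] at hc
    exact lt_irrefl _ hc
  · intro y hy
    obtain ⟨c, hc1, hc2⟩ := exists_between (lt_min hy hlt)
    refine ⟨c, ⟨hp.trans hc1, ?_⟩, hc2.trans_le (min_le_left _ _)⟩
    rw [(q2 c hc1 (hc2.trans_le (min_le_right _ _))).liminf_eq]
    exact one_pos

end Pool.Agent.H23.CR
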