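import Pool.Agent.H23.CR.Stm

/-! # Crew CR: part KER (helper6) -/

set_option autoImplicit false

namespace Pool.Agent.H23.CR

open Finset Filter Pool.Agent.H999R2.KSat Pool.Agent.H320R2.CT

theorem ker_ad_symm {n m : ℕ} {F : Fin m → Ed n} {x y : Fin n} (h : ad F x y) : ad F y x := by
  obtain ⟨j, h | h⟩ := h
  · exact ⟨j, Or.inr h⟩
  · exact ⟨j, Or.inl h⟩

theorem ker_ad_irr {n m : ℕ} {F : Fin m → Ed n} {x : Fin n} : ¬ ad F x x := by
  rintro ⟨j, h | h⟩
  · exact (F j).2 (h.1.trans h.2.symm)
  · exact (F j).2 (h.1.trans h.2.symm)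

theorem ker_ex (n m w : ℕ) (F : Fin m → Ed n) : ∃ I, IsK w F I := by
  classical
  induction w with
  | zero => exact ⟨∅, by simp, by simp, fun v hv => absurd hv (Nat.not_lt_zero _)⟩
  | succ w ih =>
    obtain ⟨I, h1, h2, h3⟩ := ih
    by_cases hw : w < n
    · set v0 : Fin n := ⟨w, hw⟩ with hv0
      by_cases hex : ∃ u ∈ I, ad F u v0
      · refine ⟨I, fun v hv => Nat.lt_succ_of_lt (h1 v hv), h2, ?_⟩
        intro v hv hvI
        rcases Nat.lt_succ_iff_lt_or_eq.1 hv with h | h
        · exact h3 v h hvI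
        · have hvv : v = v0 := Fin.ext h
          obtain ⟨u, hu, hau⟩ := hex
          refine ⟨u, hu, ?_, hvv ▸ hau⟩
          rw [hvv]
          exact h1 u hu
      · refine ⟨insert v0 I, ?_, ?_, ?_⟩
        · intro v hv
          rcases Finset.mem_insert.1 hv with h | h
          · rw [h]
            exact Nat.lt_succ_self w
          · exact Nat.lt_succ_of_lt (h1 v h)
        · intro u hu v hv ha
          rcases Finset.mem_insert.1 hu with hu' | hu' <;> rcases Finset.mem_insert.1 hv with hv' | hv'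
          · rw [hu', hv'] at ha
            exact ker_ad_irr ha
          · rw [hu'] at ha
            exact hex ⟨v, hv', ker_ad_symm ha⟩
          · rw [hv'] at ha
            exact hex ⟨u, hu', ha⟩
          · exact h2 u hu' v hv' ha
        · intro v hv hvI
          have hvI' : v ∉ I := fun h => hvI (Finset.mem_insert_of_mem h)
          have hvne : v ≠ v0 := fun h => hvI (by rw [h]; exact Finset.mem_insert_self _ _)
          rcases Nat.lt_succ_iff_lt_or_eq.1 hv with h | h
          · obtain ⟨u, hu, hlt, ha⟩ := h3 v h hvI'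
            exact ⟨u, Finset.mem_insert_of_mem hu, hlt, ha⟩
          · exact absurd (Fin.ext h) hvne
    · refine ⟨I, fun v hv => Nat.lt_succ_of_lt (h1 v hv), h2, ?_⟩
      intro v hv hvI
      exact h3 v (lt_of_lt_of_le v.2 (not_lt.1 hw)) hvI

theorem ker_uniq {n m w : ℕ} {F : Fin m → Ed n} {I I' : Finset (Fin n)} (h : IsK w F I)
    (h' : IsK w F I') : ∀ k : ℕ, ∀ v : Fin n, v.val = k → (v ∈ I ↔ v ∈ I') := by
  intro k
  induction k using Nat.strong_induction_on with
  | _ k ih =>
    intro v hv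
    constructor
    · intro hvI
      by_contra hvI'
      obtain ⟨u, hu, hlt, ha⟩ := h'.2.2 v (h.1 v hvI) hvI'
      have hu' : u ∈ I := (ih u.val (by rw [← hv]; exact hlt) u rfl).2 hu
      exact h.2.1 u hu' v hvI ha
    · intro hvI
      by_contra hvI'
      obtain ⟨u, hu, hlt, ha⟩ := h.2.2 v (h'.1 v hvI) hvI'
      have hu' : u ∈ I' := (ih u.val (by rw [← hv]; exact hlt) u rfl).1 hu
      exact h'.2.1 u hu' v hvI ha

theorem p_KER : S_KER := by
  intro n m w F
  exact ⟨ker_ex n m w F, fun I I' h h' => Finset.ext fun v => ker_uniq h h' v.val v rfl⟩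

end Pool.Agent.H23.CR
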