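import Pool.Agent.H23.CR.Stm

set_option autoImplicit false

namespace Pool.Agent.H23.CR

open Finset Filter Pool.Agent.H999R2.KSat Pool.Agent.H320R2.CT

theorem thr_unique (f : ℝ → ℕ → ℝ) (a b : ℝ)
    (ha1 : ∀ ε : ℝ, 0 < ε → Tendsto (f (a - ε)) atTop (nhds 1))
    (ha0 : ∀ ε : ℝ, 0 < ε → Tendsto (f (a + ε)) atTop (nhds 0))
    (hb1 : ∀ ε : ℝ, 0 < ε → Tendsto (f (b - ε)) atTop (nhds 1))
    (hb0 : ∀ ε : ℝ, 0 < ε → Tendsto (f (b + ε)) atTop (nhds 0)) : a = b := by
  rcases lt_trichotomy a b with h | h | h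
  · exfalso
    have h1 := ha0 ((b - a) / 2) (by linarith)
    have h2 := hb1 ((b - a) / 2) (by linarith)
    have e : a + (b - a) / 2 = b - (b - a) / 2 := by ring
    rw [e] at h1
    exact zero_ne_one (tendsto_nhds_unique h1 h2)
  · exact h
  · exfalso
    have h1 := hb0 ((a - b) / 2) (by linarith)
    have h2 := ha1 ((a - b) / 2) (by linarith)
    have e : b + (a - b) / 2 = a - (a - b) / 2 := by ring
    rw [e] at h1
    exact zero_ne_one (tendsto_nhds_unique h1 h2)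

open Classical in
theorem p_TH : S_TH := by
  refine ⟨fun k => if h : 3 ≤ k then Classical.choose (threshold k h) else 0, fun k hk => ?_⟩
  simp only [dif_pos hk]
  set t := Classical.choose (threshold k hk) with ht
  obtain ⟨h1, h0⟩ := Classical.choose_spec (threshold k hk)
  rw [← ht] at h1 h0
  have htr := Pool.Agent.H545R3.CT.transfer k t h1 h0
  have c1 : ∀ ε : ℝ, 0 < ε → Tendsto (fun n : ℕ => cp k n ⌊(t - ε) * (n : ℝ)⌋₊) atTop (nhds 1) :=
    fun ε hε => (htr ε hε).1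
  have c0 : ∀ ε : ℝ, 0 < ε → Tendsto (fun n : ℕ => cp k n ⌊(t + ε) * (n : ℝ)⌋₊) atTop (nhds 0) :=
    fun ε hε => (htr ε hε).2
  refine ⟨h1, h0, fun r hr => ?_, fun r hr => ?_, ?_⟩
  · have := c1 (t - r) (by linarith)
    rwa [sub_sub_cancel] at this
  · have := c0 (r - t) (by linarith)
    rwa [add_sub_cancel] at this
  · obtain ⟨c, C, hC, hlim, hA, hB, hW, hL⟩ := Pool.Agent.H320R2.CT.Rate.main k hk
    have hct : c = t := thr_unique (fun r n => cp k n ⌊r * (n : ℝ)⌋₊) c t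
      (fun ε hε => (hlim ε hε).1) (fun ε hε => (hlim ε hε).2) c1 c0
    subst hct
    exact ⟨C, hC, hA, hB, hW, hL⟩

end Pool.Agent.H23.CR
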