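import Pool.Agent.H23.CR.FIN
import Pool.Agent.H23.CR.TH

set_option autoImplicit false

namespace Pool.Agent.H23.CR

open Finset Filter Pool.Agent.H999R2.KSat Pool.Agent.H320R2.CT

/-- the largest number `M` of edges such that a random graph with `n` vertices and `M` edges is
`(r-1)`-colourable with probability at least `1/2` -/
noncomputable def med (r n : ℕ) : ℕ := sSup {M : ℕ | 1 / 2 ≤ cp (r - 1) n M}

theorem cp_anti (k n : ℕ) {M M' : ℕ} (h : M ≤ M') : cp k n M' ≤ cp k n M :=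
  Pool.Agent.H320R2.CT.Rate.PG_anti k n h

theorem cp_big (k n M : ℕ) (h : n * n < M) : cp k n M = 0 := by
  unfold cp
  have : Nat.card {G : SimpleGraph (Fin n) // G.edgeSet.ncard = M} = 0 := by
    rw [Pool.Agent.H320R2.CT.Rate.card_all]
    apply Nat.choose_eq_zero_of_lt
    rw [Sym2.card_subtype_not_diag, Fintype.card_fin, Nat.choose_two_right]
    calc n * (n - 1) / 2 ≤ n * (n - 1) := Nat.div_le_self _ _
      _ ≤ n * n := Nat.mul_le_mul_left n (Nat.sub_le n 1)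
      _ < M := h
  rw [this]
  simp

theorem med_lim (r : ℕ) (t : ℝ) (ht : 0 < t)
    (h1 : ∀ x, x < t → Tendsto (fun n : ℕ => cp (r - 1) n ⌊x * (n : ℝ)⌋₊) atTop (nhds 1))
    (h0 : ∀ x, t < x → Tendsto (fun n : ℕ => cp (r - 1) n ⌊x * (n : ℝ)⌋₊) atTop (nhds 0)) :
    Tendsto (fun n : ℕ => (med r n : ℝ) / n) atTop (nhds t) := by
  rw [Metric.tendsto_atTop]
  intro ε hε
  set δ : ℝ := min (ε / 2) (t / 2) with hδ
  have hδ0 : 0 < δ := lt_min (by linarith) (by linarith)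
  have hδε : δ ≤ ε / 2 := min_le_left _ _
  have hδt : δ ≤ t / 2 := min_le_right _ _
  have e1 := (h1 (t - δ) (by linarith)).eventually (lt_mem_nhds (show (1 / 2 : ℝ) < 1 by norm_num))
  have e0 := (h0 (t + δ) (by linarith)).eventually (gt_mem_nhds (show (0 : ℝ) < 1 / 2 by norm_num))
  obtain ⟨N, hN⟩ := eventually_atTop.1 (e1.and e0)
  obtain ⟨N', hN'⟩ := exists_nat_gt (2 / ε)
  refine ⟨max N (max N' 1), fun n hn => ?_⟩
  have hnN : N ≤ n := le_trans (le_max_left _ _) hn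
  have hnN' : N' ≤ n := le_trans (le_trans (le_max_left _ _) (le_max_right _ _)) hn
  have hn1 : 1 ≤ n := le_trans (le_trans (le_max_right _ _) (le_max_right _ _)) hn
  obtain ⟨a, b⟩ := hN n hnN
  have hbdd : BddAbove {M : ℕ | 1 / 2 ≤ cp (r - 1) n M} := by
    refine ⟨n * n, fun M hM => ?_⟩
    by_contra hc
    have hM' : (1 / 2 : ℝ) ≤ cp (r - 1) n M := hM
    rw [cp_big (r - 1) n M (not_le.1 hc)] at hM'
    norm_num at hM'
  have hl : ⌊(t - δ) * (n : ℝ)⌋₊ ≤ med r n := le_csSup hbdd a.le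
  have hne : {M : ℕ | 1 / 2 ≤ cp (r - 1) n M}.Nonempty := ⟨_, a.le⟩
  have hmem : (1 / 2 : ℝ) ≤ cp (r - 1) n (med r n) := Nat.sSup_mem hne hbdd
  have hu : med r n < ⌊(t + δ) * (n : ℝ)⌋₊ := by
    by_contra hc
    have := cp_anti (r - 1) n (not_lt.1 hc)
    linarith
  have hnpos : (0 : ℝ) < n := by exact_mod_cast hn1
  have hl' : (t - δ) * n - 1 < med r n := by
    have h3 := Nat.sub_one_lt_floor ((t - δ) * (n : ℝ))
    have h4 : ((⌊(t - δ) * (n : ℝ)⌋₊ : ℕ) : ℝ) ≤ med r n := by exact_mod_cast hl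
    linarith
  have hu' : (med r n : ℝ) ≤ (t + δ) * n := by
    have h3 : ((⌊(t + δ) * (n : ℝ)⌋₊ : ℕ) : ℝ) ≤ (t + δ) * n := Nat.floor_le (by positivity)
    have h4 : (med r n : ℝ) < ((⌊(t + δ) * (n : ℝ)⌋₊ : ℕ) : ℝ) := by exact_mod_cast hu
    linarith
  have hne' : 1 / (n : ℝ) < ε / 2 := by
    have h5 : 2 / ε < n := hN'.trans_le (by exact_mod_cast hnN')
    rw [div_lt_iff₀ hε] at h5
    rw [div_lt_iff₀ hnpos]
    nlinarith
  rw [Real.dist_eq, abs_lt]
  constructor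
  · have h6 : (t - δ) - 1 / n < (med r n : ℝ) / n := by
      rw [lt_div_iff₀ hnpos]
      have : ((t - δ) - 1 / (n : ℝ)) * n = (t - δ) * n - 1 := by field_simp
      rw [this]
      exact hl'
    linarith
  · have h6 : (med r n : ℝ) / n ≤ t + δ := by
      rw [div_le_iff₀ hnpos]
      exact hu'
    linarith

end Pool.Agent.H23.CR
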