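import Pool.Agent.H23.CR.FIN
import Pool.Agent.H23.CR.TH

set_option autoImplicit false

namespace Pool.Agent.H23.CR

open Finset Filter Pool.Agent.H999R2.KSat Pool.Agent.H320R2.CT

theorem rate_chi (r : ℕ) (hr : 4 ≤ r) (a b : ℝ) (ha : Lib (r - 1) a) (hb : Lib r b) :
    ∀ ε : ℝ, 0 < ε → ∃ C : ℝ, 0 < C ∧ ∀ n M : ℕ, 1 ≤ n →
      a * n + C * (n : ℝ) ^ ((17 : ℝ) / 18) ≤ M → (M : ℝ) ≤ (b - ε) * n →
      1 - C * (n : ℝ) ^ (-(1 / 36) : ℝ) ≤ chiProb r n M := by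
  intro ε hε
  obtain ⟨C1, hC1, hA, -⟩ := ha
  obtain ⟨C2, hC2, -, hB, -⟩ := hb
  obtain ⟨n0, hn0⟩ := hB ε hε
  have q1 : (0 : ℝ) < C1 := by exact_mod_cast hC1
  have q2 : (0 : ℝ) < C2 := by exact_mod_cast hC2
  have q3 : (0 : ℝ) ≤ n0 := Nat.cast_nonneg _
  refine ⟨C1 + C2 + n0, by positivity, fun n M hn hM hM' => ?_⟩
  have hn1 : (1 : ℝ) ≤ n := by exact_mod_cast hn
  have hnpos : (0 : ℝ) < n := by linarith
  have hp : (0 : ℝ) < (n : ℝ) ^ ((17 : ℝ) / 18) := by positivity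
  have hp' : (0 : ℝ) < (n : ℝ) ^ (-(1 / 36) : ℝ) := by positivity
  rcases lt_or_ge n n0 with h | h
  · have h1 : 1 ≤ (n0 : ℝ) * (n : ℝ) ^ (-(1 / 36) : ℝ) := by
      have e1 : (n : ℝ) ^ (-(1 : ℝ)) ≤ (n : ℝ) ^ (-(1 / 36) : ℝ) :=
        Real.rpow_le_rpow_of_exponent_le hn1 (by norm_num)
      rw [Real.rpow_neg_one] at e1
      have e2 : (n : ℝ) ≤ n0 := by exact_mod_cast h.le
      calc (1 : ℝ) = n * (n : ℝ)⁻¹ := by field_simp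
        _ ≤ n0 * (n : ℝ) ^ (-(1 / 36) : ℝ) := mul_le_mul e2 e1 (by positivity) q3
    have h2 : 0 ≤ chiProb r n M := by unfold chiProb; positivity
    nlinarith
  · rw [chi_eq r n M (by omega)]
    have h1 : cp (r - 1) n M ≤ (C1 : ℝ) * (n : ℝ) ^ (-(1 / 36) : ℝ) := by
      apply hA n M hn
      have : (C1 : ℝ) * (n : ℝ) ^ ((17 : ℝ) / 18) ≤
          (C1 + C2 + n0) * (n : ℝ) ^ ((17 : ℝ) / 18) :=
        mul_le_mul_of_nonneg_right (by linarith) hp.le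
      linarith
    have h2 := hn0 n M h hM'
    have h3 : (n : ℝ) ^ (-(1 / 18) : ℝ) ≤ (n : ℝ) ^ (-(1 / 36) : ℝ) :=
      Real.rpow_le_rpow_of_exponent_le hn1 (by norm_num)
    have h4 : (C2 : ℝ) * (n : ℝ) ^ (-(1 / 18) : ℝ) ≤ (C2 : ℝ) * (n : ℝ) ^ (-(1 / 36) : ℝ) :=
      mul_le_mul_of_nonneg_left h3 q2.le
    have h5 : 0 ≤ (n0 : ℝ) * (n : ℝ) ^ (-(1 / 36) : ℝ) := by positivity
    nlinarith

end Pool.Agent.H23.CR
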