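import Pool.Graph.R_seed8.H320R2.CT.Rate2

/-!
# Crew CR (MP_f6b604_pr): `c(r)` is the sharp `(r-1)`-colourability threshold, strictly increasing

Model: `m` independent uniform ordered pairs `F : Fin m → Ed n` of distinct vertices (library
`H320R2.CT`: `Ed`, `Co`, `pr`, `SolC`, `pc`; calculus `E`, `ind` of `H999R2.KSat.Defs`).
-/

set_option autoImplicit false

namespace Pool.Agent.H23.CR

open Finset Filter Pool.Agent.H999R2.KSat Pool.Agent.H320R2.CT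

/-- some edge of `F` joins `x` and `y` -/
def ad {n m : ℕ} (F : Fin m → Ed n) (x y : Fin n) : Prop :=
  ∃ j, ((F j).1.1 = x ∧ (F j).1.2 = y) ∨ ((F j).1.1 = y ∧ (F j).1.2 = x)

/-- the edge `e` avoids the set `I` -/
def av {n : ℕ} (I : Finset (Fin n)) (e : Ed n) : Prop := e.1.1 ∉ I ∧ e.1.2 ∉ I

open Classical in
/-- the number of edges of `F` avoiding `I` -/
noncomputable def rem {n m : ℕ} (F : Fin m → Ed n) (I : Finset (Fin n)) : ℕ :=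
  (univ.filter (fun j => av I (F j))).card

/-- `I` is the kernel (greedy stable set) of `F` in the first `w` vertices -/
def IsK {n m : ℕ} (w : ℕ) (F : Fin m → Ed n) (I : Finset (Fin n)) : Prop :=
  (∀ v ∈ I, v.val < w) ∧ (∀ u ∈ I, ∀ v ∈ I, ¬ ad F u v) ∧
    ∀ v : Fin n, v.val < w → v ∉ I → ∃ u ∈ I, u < v ∧ ad F u v

/-- KER (40 lines): existence and uniqueness of the kernel (strong induction on the vertex). -/
def S_KER : Prop := ∀ (n m w : ℕ) (F : Fin m → Ed n),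
  (∃ I, IsK w F I) ∧ ∀ I I', IsK w F I → IsK w F I' → I = I'

/-- RS (50 lines): resampling the coordinates with `p`, one coordinate at a time (`E_cons`,
induction on `m`; for one coordinate: `E φ = E_x E_y φ (if p x then y else x)`). -/
def S_RS : Prop := ∀ (X : Type) [Fintype X] (p : X → Prop) [DecidablePred p]
  [Nonempty {x // p x}] (m : ℕ) (f : (Fin m → X) → ℝ),
  E f = E (fun F : Fin m → X => E (fun G : Fin m → {x // p x} =>
    f (fun j => if p (F j) then (G j : X) else F j)))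

/-- RES (40 lines): a function of the coordinates in the range of an injection
(`Equiv.piEquivPiSubtypeProd`, `E_equiv`, `E_prod`, `E_const`). -/
def S_RES : Prop := ∀ (Y : Type) [Fintype Y] [Nonempty Y] (m s : ℕ) (ι : Fin s → Fin m),
  Function.Injective ι → ∀ g : (Fin s → Y) → ℝ,
  E (fun G : Fin m → Y => g (fun i => G (ι i))) = E g

open Classical in
/-- REL (70 lines): relabelling `Fin n \ I` as `Fin (n - |I|)`; a colouring of the smaller set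
extends (`1 ≤ k`). -/
def S_REL : Prop := ∀ (n k s : ℕ) (I : Finset (Fin n)), 1 ≤ k →
  pc (n - I.card) k s ≤ E (fun G : Fin s → {e : Ed n // av I e} =>
    ind (∃ σ : Co n k, ∀ i, pr σ (G i).1))

/-- DEC (100 lines, from RS, RES, REL): given the kernel `I` and the edges touching it, the other
edges are independent uniform edges avoiding `I`; give `I` the new colour. -/
def S_DEC : Prop := ∀ (n m w k : ℕ) (I : Finset (Fin n)), I.card + 2 ≤ n → 1 ≤ k →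
  E (fun F : Fin m → Ed n => ind (IsK w F I) * pc (n - I.card) k (rem F I)) ≤
    E (fun F : Fin m → Ed n => ind (IsK w F I ∧ (SolC F : Set (Co n (k + 1))).Nonempty))

/-- MOM (120 lines): the expected number of edges avoiding the kernel. For each `j`: both ends of
`F j` are `≥ w`, or both are `< w`, or exactly one end `y` is `< w` and then (if `y` is not in the
kernel) some other edge `F i` joins `y` to a vertex `< w`. -/
def S_MOM : Prop := ∀ (n m w : ℕ), 2 ≤ n → w ≤ n →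
  ∀ K : (Fin m → Ed n) → Finset (Fin n), (∀ F, IsK w F (K F)) →
  E (fun F => (rem F (K F) : ℝ)) ≤
    m * (((n : ℝ) - w) ^ 2 / n ^ 2 + (w : ℝ) ^ 2 / n ^ 2 + 16 * m * (w : ℝ) ^ 2 / n ^ 3)

/-- MRK (60 lines, from KER, DEC, MOM): Markov and the sum over the possible kernels. -/
def S_MRK : Prop := ∀ (n m w k A : ℕ), w + 2 ≤ n → 1 ≤ k →
  (∀ n', n - w ≤ n' → n' ≤ n → 1 / 2 ≤ pc n' k A) →
  1 / 2 * (1 - m * (((n : ℝ) - w) ^ 2 / n ^ 2 + (w : ℝ) ^ 2 / n ^ 2 +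
    16 * m * (w : ℝ) ^ 2 / n ^ 3) / (A + 1)) ≤ pc n (k + 1) m

/-- STP (80 lines, from MRK): `β = 1 / (8 (1 + 32 ρ))`, `w = ⌊β n⌋`, `A = ⌊(ρ - ρ β / 8) (n - w)⌋`,
`m = ⌊(ρ + ρ β / 8) n⌋`; the ratio in MRK is at most `1 - β / 2 + o(1)`. -/
def S_STP : Prop := ∀ (k : ℕ) (ρ : ℝ), 1 ≤ k → 0 < ρ →
  (∀ r, r < ρ → Tendsto (fun n : ℕ => pc n k ⌊r * (n : ℝ)⌋₊) atTop (nhds 1)) →
  ∃ η : ℝ, 0 < η ∧ ∀ᶠ n : ℕ in atTop,
    η ≤ pc n (k + 1) ⌊(ρ + ρ / (64 * (1 + 32 * ρ))) * (n : ℝ)⌋₊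

/-- `e` joins `x` and `y` -/
def jn {n : ℕ} (e : Ed n) (x y : Fin n) : Prop :=
  (e.1.1 = x ∧ e.1.2 = y) ∨ (e.1.1 = y ∧ e.1.2 = x)

/-- CYC (60 lines): if the multigraph is not 2-colourable it has a cycle
(`SimpleGraph.IsAcyclic.colorable_two`, `Walk.IsCycle`, `getVert`). -/
def S_CYC : Prop := ∀ (n m : ℕ) (F : Fin m → Ed n), ¬ (SolC F : Set (Co n 2)).Nonempty →
  ∃ l : ℕ, 3 ≤ l ∧ l ≤ m ∧ ∃ (v : Fin l → Fin n) (j : Fin l → Fin m), Function.Injective j ∧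
    ∀ i, jn (F (j i)) (v i) (v (finRotate l i))

/-- UNI (50 lines, from RES and `E_pi`, `ind_forall`): probability of given edges. -/
def S_UNI : Prop := ∀ (n m l : ℕ) (v v' : Fin l → Fin n) (j : Fin l → Fin m), 2 ≤ n →
  Function.Injective j →
  E (fun F : Fin m → Ed n => ind (∀ i, jn (F (j i)) (v i) (v' i))) ≤
    (2 / ((n : ℝ) * n - n)) ^ l

/-- POS (50 lines, from CYC, UNI): `∑_{l ≥ 3} (n m 2 / (n² - n))^l ≤ 1/2`. -/
def S_POS : Prop := ∃ n0 : ℕ, ∀ n m : ℕ, n0 ≤ n → 16 * m ≤ n → 1 / 2 ≤ pc n 2 m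

/-! ## The thresholds -/

/-- the probability that a uniformly random graph with `n` vertices and `M` edges is
`k`-colourable -/
noncomputable def cp (k n M : ℕ) : ℝ :=
  (Nat.card {G : SimpleGraph (Fin n) // G.edgeSet.ncard = M ∧ G.Colorable k} : ℝ) /
    (Nat.card {G : SimpleGraph (Fin n) // G.edgeSet.ncard = M} : ℝ)

/-- the library theorem `H320R2.CT.Rate.main` for the constant `c` -/
def Lib (k : ℕ) (c : ℝ) : Prop := ∃ C : ℕ, 0 < C ∧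
    (∀ n M : ℕ, 1 ≤ n → c * n + (C : ℝ) * (n : ℝ) ^ ((17 : ℝ) / 18) ≤ M →
      cp k n M ≤ (C : ℝ) * (n : ℝ) ^ (-(1 / 36) : ℝ)) ∧
    (∀ ε : ℝ, 0 < ε → ∃ n0 : ℕ, ∀ n M : ℕ, n0 ≤ n → (M : ℝ) ≤ (c - ε) * n →
      1 - (C : ℝ) * (n : ℝ) ^ (-(1 / 18) : ℝ) ≤ cp k n M) ∧
    (∀ n : ℕ, 1 ≤ n → ∃ m : ℕ,
      (∀ M : ℕ, (M : ℝ) + (C : ℝ) * (n : ℝ) ^ ((17 : ℝ) / 18) ≤ m →
        1 - (C : ℝ) * (n : ℝ) ^ (-(1 / 18) : ℝ) ≤ cp k n M) ∧
      (∀ M : ℕ, (m : ℝ) + (C : ℝ) * (n : ℝ) ^ ((17 : ℝ) / 18) ≤ M →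
        cp k n M ≤ (C : ℝ) * (n : ℝ) ^ (-(1 / 36) : ℝ))) ∧
    IsLUB {x : ℝ | ∃ n M : ℕ, 1 ≤ n ∧ 1 / 2 ≤ cp k n M ∧
      x = (M : ℝ) / n - (C : ℝ) * (n : ℝ) ^ (-(1 / 18) : ℝ)} c

/-- TH (50 lines, library `threshold`, `H545R3.CT.transfer`, `Rate.main`; the two constants agree
by uniqueness of the threshold). -/
def S_TH : Prop := ∃ t : ℕ → ℝ, ∀ k, 3 ≤ k →
  (∀ r, r < t k → Tendsto (fun n : ℕ => pc n k ⌊r * (n : ℝ)⌋₊) atTop (nhds 1)) ∧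
  (∀ r, t k < r → Tendsto (fun n : ℕ => pc n k ⌊r * (n : ℝ)⌋₊) atTop (nhds 0)) ∧
  (∀ r, r < t k → Tendsto (fun n : ℕ => cp k n ⌊r * (n : ℝ)⌋₊) atTop (nhds 1)) ∧
  (∀ r, t k < r → Tendsto (fun n : ℕ => cp k n ⌊r * (n : ℝ)⌋₊) atTop (nhds 0)) ∧
  Lib k (t k)

/-- INC (40 lines, from STP, POS): the thresholds increase by at least `1/4000`. -/
def S_INC : Prop := ∀ t : ℕ → ℝ, (∀ k, 3 ≤ k →
  (∀ r, r < t k → Tendsto (fun n : ℕ => pc n k ⌊r * (n : ℝ)⌋₊) atTop (nhds 1)) ∧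
  (∀ r, t k < r → Tendsto (fun n : ℕ => pc n k ⌊r * (n : ℝ)⌋₊) atTop (nhds 0))) →
  1 / 16 ≤ t 3 ∧ ∀ k, 3 ≤ k → t k + 1 / 4000 ≤ t (k + 1)

/-- the probability that a uniformly random graph with vertex set `Fin n` and exactly `M` edges
has chromatic number `r` -/
noncomputable def chiProb (r n M : ℕ) : ℝ :=
  (Nat.card {G : SimpleGraph (Fin n) // G.edgeSet.ncard = M ∧ G.chromaticNumber = r} : ℝ) /
    (Nat.card {G : SimpleGraph (Fin n) // G.edgeSet.ncard = M} : ℝ)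

/-- `c(r)` of the problem -/
noncomputable def cc (r : ℕ) : ℝ :=
  sInf {c : ℝ | 0 < c ∧ 0 < liminf (fun n : ℕ => chiProb r n ⌊c * (n : ℝ)⌋₊) atTop}

/-- FIN (80 lines): from the thresholds to the problem. -/
def S_FIN : Prop := ∀ t : ℕ → ℝ, 0 < t 3 → (∀ k, 3 ≤ k → t k < t (k + 1)) →
  (∀ k, 3 ≤ k →
  (∀ r, r < t k → Tendsto (fun n : ℕ => cp k n ⌊r * (n : ℝ)⌋₊) atTop (nhds 1)) ∧
  (∀ r, t k < r → Tendsto (fun n : ℕ => cp k n ⌊r * (n : ℝ)⌋₊) atTop (nhds 0))) →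
  ∀ r, 4 ≤ r → cc r = t (r - 1) ∧
    (∀ x, 0 < x → x < t (r - 1) → Tendsto (fun n : ℕ => chiProb r n ⌊x * (n : ℝ)⌋₊) atTop (nhds 0)) ∧
    (∀ x, t (r - 1) < x → x < t r →
      Tendsto (fun n : ℕ => chiProb r n ⌊x * (n : ℝ)⌋₊) atTop (nhds 1)) ∧
    (∀ x, t r < x → Tendsto (fun n : ℕ => chiProb r n ⌊x * (n : ℝ)⌋₊) atTop (nhds 0))

end Pool.Agent.H23.CR
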